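import Mathlib
import Pool.Agent.N382.XK.Lower

/-!
# The clique number of the xor-square of a Kneser graph

For all `k ≥ 1` and all `n ≥ 2 k³ 4ᵏ` the clique number of `KG(n,k) · KG(n,k)` is
`⌊n/k⌋ + (k/2) binom(2k,k) - k`.
-/

set_option autoImplicit false

namespace Pool.Agent.Results.MP_0f7bbd_co.XorSquareKneser

open Finset

/-- The Kneser graph `KG(n, k)`: the vertices are the `k`-subsets of an `n`-set, and distinct
vertices are adjacent exactly when they are disjoint. -/
def kneser (n k : ℕ) : SimpleGraph {A : Finset (Fin n) // A.card = k} where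
  Adj A B := A ≠ B ∧ Disjoint A.1 B.1
  symm := ⟨fun _ _ h => ⟨h.1.symm, h.2.symm⟩⟩
  loopless := ⟨fun _ h => h.1 rfl⟩

/-- The xor-product of two graphs: `(g, h)` and `(g', h')` are adjacent exactly when one, but not
both, of `g g' ∈ E(G)` and `h h' ∈ E(H)` holds. -/
def xorProd {V W : Type*} (G : SimpleGraph V) (H : SimpleGraph W) : SimpleGraph (V × W) where
  Adj p q := Xor (G.Adj p.1 q.1) (H.Adj p.2 q.2)
  symm := ⟨fun p q h => by rwa [G.adj_comm q.1 p.1, H.adj_comm q.2 p.2]⟩
  loopless := ⟨fun p h => by simp [Xor] at h⟩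

/-- `f₂(n, k)`, the clique number of `KG(n,k) · KG(n,k)`. -/
noncomputable def f2 (n k : ℕ) : ℕ := (xorProd (kneser n k) (kneser n k)).cliqueNum

/-- `g(k) = (k/2) binom(2k,k) - k`. -/
def g (k : ℕ) : ℚ := (k : ℚ) / 2 * ((2 * k).choose k : ℚ) - k

lemma kneser_adj {n k : ℕ} (hk : 1 ≤ k) (A B : {A : Finset (Fin n) // A.card = k}) :
    (kneser n k).Adj A B ↔ Disjoint A.1 B.1 := by
  constructor
  · intro h; exact h.2
  · intro h
    refine ⟨?_, h⟩
    rintro rfl
    rw [disjoint_self] at h
    have := A.2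
    rw [h] at this
    simp at this
    omega

lemma f2_key (k n : ℕ) (hk : 1 ≤ k) (hn : 2 * k ^ 3 * 4 ^ k ≤ n) (b : ℕ)
    (hb : 2 * b = (2 * k).choose k) : f2 n k + k = n / k + k * b := by
  classical
  have hb1 : 1 ≤ b := by
    have : 0 < (2 * k).choose k := Nat.choose_pos (by omega)
    omega
  have hb4 : 2 * b ≤ 4 ^ k := by
    rw [hb]
    calc (2 * k).choose k ≤ 2 ^ (2 * k) := Nat.choose_le_two_pow _ _
      _ = 4 ^ k := by rw [pow_mul]; norm_num
  have hk3 : k ^ 3 = k * k ^ 2 := by ring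
  have h4 : 1 ≤ 4 ^ k := Nat.one_le_pow _ _ (by norm_num)
  have hkk : 1 ≤ k ^ 2 := Nat.one_le_pow _ _ hk
  apply le_antisymm
  · -- upper bound
    by_contra hcon
    push Not at hcon
    obtain ⟨s, hs⟩ := (xorProd (kneser n k) (kneser n k)).exists_isNClique_cliqueNum
    have hcard : Fintype.card s = f2 n k := by
      rw [Fintype.card_coe]; exact hs.card_eq
    have hadj : ∀ i j : s, i ≠ j → Xor (Disjoint (i.1.1.1) (j.1.1.1))
        (Disjoint (i.1.2.1) (j.1.2.1)) := by
      intro i j hij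
      have h := hs.isClique i.2 j.2 (fun h => hij (Subtype.ext h))
      simp only [xorProd, kneser_adj hk] at h
      exact h
    have hkb : k ≤ k * b := Nat.le_mul_of_pos_right k hb1
    have hnk : 2 * k ^ 2 * 4 ^ k ≤ n / k := by
      rw [Nat.le_div_iff_mul_le (by omega)]
      calc 2 * k ^ 2 * 4 ^ k * k = 2 * k ^ 3 * 4 ^ k := by ring
        _ ≤ n := hn
    have hN : 2 * k ^ 2 * 4 ^ k < Fintype.card s := by
      rw [hcard]; omega
    have hup := N382.XK.upper_large k hk (fun i : s => i.1.1.1) (fun i : s => i.1.2.1)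
      (fun i => i.1.1.2) (fun i => i.1.2.2)
      (by
        intro i j hij h
        rcases hadj i j hij with h' | h'
        · exact absurd h'.1 h
        · exact h'.1)
      (by
        intro i j hij h h2
        rcases hadj i j hij with h' | h'
        · exact h'.2 h
        · exact h'.2 h2) hN
    rw [hcard, ← hb] at hup
    have h5 : k * (f2 n k + k) ≤ n + k * (k * b) := by
      have e1 : 2 * k * f2 n k + 2 * k ^ 2 = 2 * (k * (f2 n k + k)) := by ring
      have e2 : 2 * n + k ^ 2 * (2 * b) = 2 * (n + k * (k * b)) := by ring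
      omega
    have h6 : f2 n k + k ≤ (n + k * (k * b)) / k := by
      rw [Nat.le_div_iff_mul_le (by omega)]
      calc (f2 n k + k) * k = k * (f2 n k + k) := by ring
        _ ≤ _ := h5
    rw [Nat.add_mul_div_left _ _ (by omega)] at h6
    omega
  · -- lower bound
    have hc1 : k ^ 2 * (b - 1) ≤ n := by
      calc k ^ 2 * (b - 1) ≤ k ^ 2 * 4 ^ k := by gcongr; omega
        _ ≤ 2 * k ^ 3 * 4 ^ k := by
            apply Nat.mul_le_mul_right
            rw [hk3]; nlinarith
        _ ≤ n := hn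
    have hc2 : 2 * k ≤ n := by
      calc 2 * k ≤ 2 * k ^ 3 := by rw [hk3]; nlinarith
        _ ≤ 2 * k ^ 3 * 4 ^ k := Nat.le_mul_of_pos_right _ h4
        _ ≤ n := hn
    obtain ⟨ι, _, _, X, Y, hι, hX, hY, hXY⟩ := N382.XK.construction n k hk b hb hc1 hc2
    let v : ι → {A : Finset (Fin n) // A.card = k} × {A : Finset (Fin n) // A.card = k} :=
      fun i => (⟨X i, hX i⟩, ⟨Y i, hY i⟩)
    have hv : ∀ i j, i ≠ j → (xorProd (kneser n k) (kneser n k)).Adj (v i) (v j) := by
      intro i j hij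
      simp only [xorProd, kneser_adj hk, v]
      exact hXY i j hij
    have hinj : Function.Injective v := by
      intro i j h
      by_contra hij
      exact (hv i j hij).ne h
    have hcl : (xorProd (kneser n k) (kneser n k)).IsClique
        ((univ.map ⟨v, hinj⟩ : Finset _) : Set _) := by
      intro a ha c hc hac
      simp only [Finset.coe_map, Function.Embedding.coeFn_mk, Finset.coe_univ, Set.image_univ,
        Set.mem_range] at ha hc
      obtain ⟨i, rfl⟩ := ha
      obtain ⟨j, rfl⟩ := hc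
      exact hv i j (fun h => hac (by rw [h]))
    have hle := hcl.card_le_cliqueNum
    rw [Finset.card_map, Finset.card_univ, hι] at hle
    have hkb : k * (b - 1) + k = k * b := by
      obtain ⟨c, rfl⟩ : ∃ c, b = c + 1 := ⟨b - 1, by omega⟩
      simp; ring
    unfold f2
    omega

/-- **Main theorem.** For all `k ≥ 1` and `n ≥ 2 k³ 4ᵏ`, `f₂(n,k) = ⌊n/k⌋ + g(k)`. -/
theorem result (k n : ℕ) (hk : 1 ≤ k) (hn : 2 * k ^ 3 * 4 ^ k ≤ n) :
    (f2 n k : ℚ) = ((n / k : ℕ) : ℚ) + g k := by
  obtain ⟨b, hb⟩ := Nat.two_dvd_centralBinom_of_one_le hk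
  rw [Nat.centralBinom_eq_two_mul_choose] at hb
  have h := f2_key k n hk hn b hb.symm
  have h' : (f2 n k : ℚ) + k = ((n / k : ℕ) : ℚ) + k * b := by exact_mod_cast h
  unfold g
  rw [hb]
  push_cast
  linarith

end Pool.Agent.Results.MP_0f7bbd_co.XorSquareKneser
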